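import Pool.Agent.H25.CFL.Targets

/-!
# Row B1 of the board hcl
-/

open Ordinal Cardinal Order Set
open scoped ZFSet

universe u

namespace Pool.Agent.H61.HCL

open _root_.HD Pool.Agent.H25.CFL

theorem pf_B1 (hLW : Pool.Agent.H25.CFL.T_LW.{u}) (hNB : Pool.Agent.H25.CFL.T_NB1.{u}) :
    Pool.Agent.H25.CFL.T_B1.{u} := by
  intro D lam hD hlam hDl
  have hlim : IsSuccLimit lam := hlam.1
  have hcof : ℵ₀ ≤ lam.cof := Ordinal.aleph0_le_cof.2 hlim
  rcases hcof.eq_or_lt with h0 | h0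
  · exact Or.inl h0.symm
  right
  have hDw : ℵ₀ < D := hD.2.2.1
  obtain ⟨th, hth⟩ := hLW D lam hlam h0 hDw
    (fun M hM _ hMD => hNB D M lam hD hM hMD hlim hDl)
  refine ⟨th, hth, fun a h1 h2 h3 h4 => ?_⟩
  rcases h2.eq_or_lt with rfl | h2
  · rfl
  have h5 : lam.cof ≤ a.cof := hth.top a h1 h2 h4
  have h6 : ℵ₀ < a.cof := h0.trans_le h5
  obtain ⟨th', hth'⟩ := hLW D a h4 h6 hDw
    (fun M hM _ hMD => hNB D M a hD hM hMD h4.1 h3)
  have heq : th = th' := by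
    rcases lt_trichotomy th th' with h | h | h
    · exfalso
      obtain ⟨t, ht1, ht2, ht3, ht4⟩ := hth'.unb ℵ₀ isRegular_aleph0 h6 hDw th h
      have h7 := hth.top t ht1.le ((ht2.trans_le hth'.le).trans h2) ht3
      rw [ht4] at h7
      exact absurd h0 h7.not_gt
    · exact h
    · exfalso
      obtain ⟨t, ht1, ht2, ht3, ht4⟩ := hth.unb ℵ₀ isRegular_aleph0 h0 hDw th' h
      have h7 := hth'.top t ht1.le (ht2.trans_le h1) ht3
      rw [ht4] at h7
      exact absurd h6 h7.not_gt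
  rw [← hth'.cof, ← heq, hth.cof]

end Pool.Agent.H61.HCL
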